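import Mathlib
import Pool.Agent.H294UB.Iter

set_option autoImplicit false

namespace H294UB

open MvPolynomial Pool.Agent.H936R2 Pool.Agent.H927R2.RD H294DM

namespace PermB

open IterAux

variable {A : Type} [CommRing A]

lemma per_iter {N d : ℕ} {π : A} (F : Fin (N + 1) → MvPolynomial (Fin (N + 1)) ℤ)
    (hF : ∀ i, (F i).IsHomogeneous d) {j n : ℕ} {z : Fin (N + 1) → A} {u : A} (hu : IsUnit u)
    (h : Cong π j ((ev A F)^[n] z) (u • z)) (q : ℕ) :
    ∃ v : A, IsUnit v ∧ Cong π j ((ev A F)^[n * q] z) (v • z) := by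
  induction q with
  | zero => exact ⟨1, isUnit_one, fun i => by simp⟩
  | succ q ih =>
    obtain ⟨v, hv, hvz⟩ := ih
    refine ⟨v ^ d ^ n * u, (hv.pow _).mul hu, ?_⟩
    have h1 := cong_iter F hvz n
    rw [iter_smul F hF, ← Function.iterate_add_apply] at h1
    have h2 := cong_smul h (v ^ d ^ n)
    rw [smul_smul] at h2
    have e : n + n * q = n * (q + 1) := by ring
    rw [e] at h1
    exact cong_trans h1 h2

lemma cong_one {n : ℕ} {π : A} {j : ℕ} (hj : 1 ≤ j) {x y : Fin n → A} (h : Cong π j x y) :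
    Cong π 1 x y := fun i => (pow_dvd_pow π hj).trans (h i)

end PermB

open IterAux PermB

theorem taskPermB (h : TaskIter) : TaskPerm := by
  intro A _ _ _ π hπ N d F hF hG j w hfin hcard hj z hz hzr
  -- pigeonhole
  have hpig : ∃ a b : ℕ, a < b ∧ b ≤ w ∧ Cong π j ((ev A F)^[b] z) ((ev A F)^[a] z) := by
    by_contra hcon
    push Not at hcon
    let g : Fin (w + 1) → (Fin (N + 1) → A ⧸ Ideal.span {π ^ j}) := fun i k =>
      Ideal.Quotient.mk _ ((ev A F)^[i.1] z k)
    have hg0 : ∀ i i' : Fin (w + 1), g i = g i' →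
        Cong π j ((ev A F)^[i.1] z) ((ev A F)^[i'.1] z) := by
      intro i i' hii k
      have h1 := congrFun hii k
      have h2 : Ideal.Quotient.mk (Ideal.span {π ^ j}) ((ev A F)^[i.1] z k) =
        Ideal.Quotient.mk (Ideal.span {π ^ j}) ((ev A F)^[i'.1] z k) := h1
      rw [Ideal.Quotient.eq, Ideal.mem_span_singleton] at h2
      exact h2
    have hg : Function.Injective g := by
      intro i i' hii
      by_contra hne
      have hne' : i.1 ≠ i'.1 := fun h' => hne (Fin.ext h')
      rcases lt_or_gt_of_ne hne' with hlt | hlt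
      · exact hcon i.1 i'.1 hlt (by have := i'.2; omega) (cong_symm (hg0 i i' hii))
      · exact hcon i'.1 i.1 hlt (by have := i.2; omega) (hg0 i i' hii)
    have hle := Nat.card_le_card_of_injective g hg
    rw [Nat.card_fun] at hle
    simp only [Nat.card_eq_fintype_card, Fintype.card_fin] at hle
    exact absurd (hle.trans hcard) (by omega)
  obtain ⟨a, b, hab, hbw, hcab⟩ := hpig
  obtain ⟨m, hm, c, hc, hmc⟩ := hzr
  obtain ⟨c1, hc1, hc1z⟩ := per_iter F hF hc hmc a
  -- the point x
  have e1 : (ev A F)^[a] ((ev A F)^[b - a] z) = (ev A F)^[b] z := by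
    rw [← Function.iterate_add_apply]
    congr 1; omega
  have hx1 : Cong π 1 ((ev A F)^[m * a] ((ev A F)^[b - a] z))
      (c1 ^ d ^ (b - a) • (ev A F)^[b - a] z) := by
    have h1 := cong_iter F hc1z (b - a)
    rw [iter_smul F hF, ← Function.iterate_add_apply] at h1
    rw [← Function.iterate_add_apply, Nat.add_comm (m * a)]
    exact h1
  have hx2 : Cong π 1 ((ev A F)^[m * a] ((ev A F)^[b - a] z)) (c1 • z) := by
    have hma : a ≤ m * a := Nat.le_mul_of_pos_left a hm
    have h1 := cong_iter F (cong_one hj hcab) (m * a - a)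
    rw [← Function.iterate_add_apply, ← Function.iterate_add_apply] at h1
    have e2 : m * a - a + a = m * a := by omega
    have e3 : m * a - a + b = m * a + (b - a) := by omega
    rw [e2, e3, Function.iterate_add_apply (ev A F) (m * a) (b - a)] at h1
    exact cong_trans h1 hc1z
  obtain ⟨s, hs⟩ := (hc1.pow (d ^ (b - a))).exists_left_inv
  have hsu : IsUnit s := IsUnit.of_mul_eq_one _ hs
  have hx3 : Cong π 1 ((ev A F)^[b - a] z) ((s * c1) • z) := by
    have h1 := cong_smul (cong_trans (cong_symm hx1) hx2) s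
    rw [smul_smul, smul_smul, hs, one_smul] at h1
    exact h1
  obtain ⟨u, hu, hux⟩ := h A π hπ N d F hF hG j a ((ev A F)^[b - a] z) z hz
    ⟨m, hm, c, hc, hmc⟩ (s * c1) (hsu.mul hc1) hx3 1 (by rw [e1, one_smul]; exact hcab)
  have hdvd : b - a ∣ w.factorial := Nat.dvd_factorial (by omega) (by omega)
  obtain ⟨q, hq⟩ := hdvd
  obtain ⟨v, hv, hvz⟩ := per_iter F hF hu hux q
  exact ⟨v, hv, by rw [hq]; exact hvz⟩

end H294UB
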